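import Mathlib
import Pool.Agent.MP_2616de_co.Final

namespace Pool.Agent.Results.MP_2616de_co.NearDensest

open Pool.Agent.MP_2616de_co Filter Topology

theorem result : ∃ ε : ℕ → ℝ, Tendsto ε atTop (𝓝 0) ∧
    ∀ N : ℕ, 2 ≤ N → ∀ (r : ℝ) (X : Fin N → Torus), IsPacking r X → 3 < markov N r →
      ∃ (r' : ℝ) (Y : Fin N → Torus) (σ : Equiv.Perm (Fin N)),
        IsDensest r' Y ∧ cdist X (Y ∘ σ) ≤ ε N := by
  set S : ℕ → Set ℝ := fun N => {e | 0 ≤ e ∧ ∀ (r : ℝ) (X : Fin N → Torus), IsPacking r X →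
    3 < markov N r → ∃ (r' : ℝ) (Y : Fin N → Torus) (σ : Equiv.Perm (Fin N)),
      IsDensest r' Y ∧ cdist X (Y ∘ σ) ≤ e} with hS
  have hne : ∀ N, (S N).Nonempty := by
    intro N
    refine ⟨√N, Real.sqrt_nonneg _, fun r X hX _ => ?_⟩
    obtain ⟨r', Y, hY⟩ := exists_densest hX
    refine ⟨r', Y, 1, hY, Real.sqrt_le_sqrt ?_⟩
    simpa using Finset.sum_le_sum (s := Finset.univ) fun i _ => tdist_sq_le (X i) (Y i)
  have hbdd : ∀ N, BddBelow (S N) := fun N => ⟨0, fun e he => he.1⟩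
  refine ⟨fun N => sInf (S N) + 1 / ((N : ℝ) + 1), ?_, fun N _ r X hX hM => ?_⟩
  · have h1 : Tendsto (fun N => sInf (S N)) atTop (𝓝 0) := by
      rw [Metric.tendsto_atTop]
      intro η hη
      obtain ⟨N0, h⟩ := close_to_densest (half_pos hη)
      refine ⟨N0, fun N hN => ?_⟩
      rw [Real.dist_eq, sub_zero, abs_of_nonneg (le_csInf (hne N) fun e he => he.1)]
      exact (csInf_le (hbdd N) ⟨(half_pos hη).le, h N hN⟩).trans_lt (half_lt_self hη)
    simpa using h1.add tendsto_one_div_add_atTop_nhds_zero_nat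
  · obtain ⟨e, he, hlt⟩ := exists_lt_of_csInf_lt (hne N)
      (lt_add_of_pos_right (sInf (S N)) (show 0 < 1 / ((N : ℝ) + 1) by positivity))
    obtain ⟨r', Y, σ, h1, h2⟩ := he.2 r X hX hM
    exact ⟨r', Y, σ, h1, h2.trans hlt.le⟩

end Pool.Agent.Results.MP_2616de_co.NearDensest
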